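import Pool.Agent.Helper53_FCM.Energy

/-!
Few distances force complex multiplication: rich lines parallel to a line with many rational points.
-/

set_option autoImplicit false

namespace Pool.Agent.FCM.H59

open Module Complex ComplexConjugate Pool.Agent.FCM

variable {d : ℕ} {v : Fin d → ℂ}

theorem clear_den (z : ℂ) (hz : z ∈ VQ v) : ∃ (D : ℕ) (g : Fin d → ℤ), D ≠ 0 ∧
    pt v g = (D : ℚ) • z := by
  obtain ⟨c, hc⟩ := (Submodule.mem_span_range_iff_exists_fun ℚ).1 hz
  have hdvd : ∀ i, ∃ m : ℕ, ∏ j, (c j).den = (c i).den * m := fun i =>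
    Finset.dvd_prod_of_mem (fun j => (c j).den) (Finset.mem_univ i)
  choose m hm using hdvd
  refine ⟨∏ j, (c j).den, fun i => (c i).num * m i, ?_, ?_⟩
  · exact Finset.prod_ne_zero_iff.2 fun j _ => (c j).den_ne_zero
  · rw [pt_eq, ← hc, Finset.smul_sum]
    refine Finset.sum_congr rfl fun i _ => ?_
    rw [smul_smul]
    congr 1
    rw [hm i]
    push_cast
    have h1 : (c i) * ((c i).den : ℚ) = (c i).num := Rat.mul_den_eq_num (c i)
    rw [← h1]
    ring

theorem exists_g (v : Fin d → ℂ) (e : ℂ) :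
    ∃ g : Fin (finrank ℚ (VQ v ⊓ ln e : Submodule ℚ ℂ)) → Fin d → ℤ,
      (∀ j, pt v (g j) ∈ ln e) ∧ LinearIndependent ℚ (fun j => pt v (g j)) := by
  have := finite_VQ v
  have f1 : FiniteDimensional ℚ (VQ v ⊓ ln e : Submodule ℚ ℂ) :=
    Submodule.finiteDimensional_of_le inf_le_left
  set W : Submodule ℚ ℂ := VQ v ⊓ ln e with hW
  let b := Module.finBasis ℚ W
  have hb : ∀ j, ∃ (D : ℕ) (g : Fin d → ℤ), D ≠ 0 ∧ pt v g = (D : ℚ) • ((b j : W) : ℂ) :=
    fun j => clear_den _ (b j).2.1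
  choose D g hD hg using hb
  refine ⟨g, ?_, ?_⟩
  · intro j
    rw [hg j]
    exact Submodule.smul_mem _ _ (b j).2.2
  · have hbi : LinearIndependent ℚ (fun j => ((b j : W) : ℂ)) :=
      b.linearIndependent.map' W.subtype (Submodule.ker_subtype W)
    rw [Fintype.linearIndependent_iff] at hbi ⊢
    intro a ha j
    have h1 : ∑ i, (a i * (D i : ℚ)) • ((b i : W) : ℂ) = 0 := by
      rw [← ha]
      refine Finset.sum_congr rfl fun i _ => ?_
      rw [hg i, smul_smul]
    have h2 := hbi _ h1 j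
    have h3 : (D j : ℚ) ≠ 0 := by exact_mod_cast hD j
    exact (mul_eq_zero.1 h2).resolve_right h3

theorem pt_sum_smul {ι : Type} [Fintype ι] (v : Fin d → ℂ) (g : ι → Fin d → ℤ) (n : ι → ℤ) :
    pt v (∑ j, n j • g j) = ∑ j, (n j : ℚ) • pt v (g j) := by
  have h : ∀ s : Finset ι, pt v (∑ j ∈ s, n j • g j) = ∑ j ∈ s, (n j : ℚ) • pt v (g j) := by
    classical
    intro s
    induction s using Finset.induction_on with
    | empty => simp [pt_zero]
    | insert a s ha ih =>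
      rw [Finset.sum_insert ha, Finset.sum_insert ha, pt_add, ih]
      congr 1
      unfold pt
      rw [Finset.smul_sum]
      refine Finset.sum_congr rfl fun i _ => ?_
      rw [Pi.smul_apply, smul_eq_mul, Rat.smul_def]
      push_cast
      ring
  exact h Finset.univ

open Classical in
theorem lin {d : ℕ} {v : Fin d → ℂ} (hv : LinearIndependent ℚ v) {e : ℂ} (_he : e ≠ 0) :
    ∃ c : ℝ, 0 < c ∧ ∀ (N : ℕ) (A : Finset ℂ), 1 ≤ N →
      (∀ z ∈ A, ∃ x : Fin d → ℤ, (∀ i, |x i| ≤ N) ∧ pt v x = z) →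
      ∃ z0 : ℂ, c * A.card ≤ (N : ℝ) ^ (d - finrank ℚ (VQ v ⊓ ln e : Submodule ℚ ℂ)) *
        ((A.filter fun z => z - z0 ∈ ln e).card : ℝ) := by
  have := finite_VQ v
  have f1 : FiniteDimensional ℚ (VQ v ⊓ ln e : Submodule ℚ ℂ) :=
    Submodule.finiteDimensional_of_le inf_le_left
  obtain ⟨k, hk, g, hg, hgi⟩ : ∃ k : ℕ, finrank ℚ (VQ v ⊓ ln e : Submodule ℚ ℂ) = k ∧
      ∃ g : Fin k → Fin d → ℤ, (∀ j, pt v (g j) ∈ ln e) ∧
        LinearIndependent ℚ (fun j => pt v (g j)) := ⟨_, rfl, exists_g v e⟩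
  rw [hk]
  have hkd : k ≤ d := by
    have h1 : k ≤ finrank ℚ (VQ v) := by
      rw [← hk]
      exact Submodule.finrank_mono inf_le_left
    rwa [finrank_VQ hv] at h1
  -- a bound for the entries
  obtain ⟨h, hh⟩ : ∃ h : ℕ, ∀ j i, |g j i| ≤ (h : ℤ) := by
    refine ⟨∑ j, ∑ i, (g j i).natAbs, fun j i => ?_⟩
    have h1 : (g j i).natAbs ≤ ∑ i, (g j i).natAbs :=
      Finset.single_le_sum (f := fun i => (g j i).natAbs) (fun _ _ => Nat.zero_le _)
        (Finset.mem_univ i)
    have h2 : ∑ i, (g j i).natAbs ≤ ∑ j, ∑ i, (g j i).natAbs :=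
      Finset.single_le_sum (f := fun j => ∑ i, (g j i).natAbs) (fun _ _ => Nat.zero_le _)
        (Finset.mem_univ j)
    rw [Int.abs_eq_natAbs]
    exact_mod_cast h1.trans h2
  set H : ℕ := k * h + 1 with hH
  have hHpos : (0 : ℝ) < H := by positivity
  refine ⟨1 / (5 ^ d * (H : ℝ) ^ k), by positivity, ?_⟩
  intro N A hN hA
  -- classes
  set q : ℂ → ℂ ⧸ ln e := fun z => (ln e).mkQ z with hq
  have hqe : ∀ z z' : ℂ, q z = q z' ↔ z - z' ∈ ln e := fun z z' => Submodule.Quotient.eq (ln e)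
  rcases A.eq_empty_or_nonempty with hAe | hAne
  · refine ⟨0, ?_⟩
    rw [hAe]
    simp
  set R : Finset (ℂ ⧸ ln e) := A.image q with hR
  have hx : ∀ c : ℂ ⧸ ln e, c ∈ R → ∃ x : Fin d → ℤ, (∀ i, |x i| ≤ N) ∧ q (pt v x) = c := by
    intro c hc
    obtain ⟨z, hz, rfl⟩ := Finset.mem_image.1 hc
    obtain ⟨x, hx1, hx2⟩ := hA z hz
    exact ⟨x, hx1, by rw [hx2]⟩
  choose! X hX1 hX2 using hx
  -- counting
  have hcount : R.card * (N / H + 1) ^ k ≤ (4 * N + 1) ^ d := by
    have h1 : (4 * N + 1) ^ d = (bx d (2 * N)).card := by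
      rw [card_bx]
      congr 1
      omega
    have h2 : R.card * (N / H + 1) ^ k
        = (R ×ˢ (Finset.univ : Finset (Fin k → Fin (N / H + 1)))).card := by
      rw [Finset.card_product, Finset.card_univ, Fintype.card_pi_const, Fintype.card_fin]
    rw [h1, h2]
    apply Finset.card_le_card_of_injOn
      (fun p => X p.1 + ∑ j, ((p.2 j : ℕ) : ℤ) • g j)
    · rintro ⟨c, n⟩ hp
      have hc : c ∈ R := (Finset.mem_product.1 hp).1
      rw [Finset.mem_coe, mem_bx]
      intro i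
      have h3 := hX1 c hc i
      have h4 : |(∑ j, ((n j : ℕ) : ℤ) • g j) i| ≤ (N : ℤ) := by
        rw [Finset.sum_apply]
        refine (Finset.abs_sum_le_sum_abs _ _).trans ?_
        have h5 : ∀ j ∈ (Finset.univ : Finset (Fin k)),
            |(((n j : ℕ) : ℤ) • g j) i| ≤ ((N / H : ℕ) : ℤ) * h := by
          intro j _
          rw [Pi.smul_apply, smul_eq_mul, abs_mul, Nat.abs_cast]
          have h6 : ((n j : ℕ) : ℤ) ≤ ((N / H : ℕ) : ℤ) := by
            have := (n j).2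
            exact_mod_cast Nat.lt_succ_iff.1 this
          exact mul_le_mul h6 (hh j i) (abs_nonneg _) (by positivity)
        refine (Finset.sum_le_sum h5).trans ?_
        rw [Finset.sum_const, Finset.card_univ, Fintype.card_fin, nsmul_eq_mul]
        have h7 : k * ((N / H) * h) ≤ N := by
          calc k * ((N / H) * h) = (N / H) * (k * h) := by ring
            _ ≤ (N / H) * H := Nat.mul_le_mul_left _ (by omega)
            _ ≤ N := Nat.div_mul_le_self N H
        exact_mod_cast h7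
      have h8 := abs_add_le (X c i) ((∑ j, ((n j : ℕ) : ℤ) • g j) i)
      show |X c i + (∑ j, ((n j : ℕ) : ℤ) • g j) i| ≤ ((2 * N : ℕ) : ℤ)
      push_cast
      linarith
    · rintro ⟨c, n⟩ hp ⟨c', n'⟩ hp' hpp
      have hc : c ∈ R := (Finset.mem_product.1 hp).1
      have hc' : c' ∈ R := (Finset.mem_product.1 hp').1
      have e1 : X c + ∑ j, ((n j : ℕ) : ℤ) • g j = X c' + ∑ j, ((n' j : ℕ) : ℤ) • g j := hpp
      have e2 := congrArg (pt v) e1
      rw [pt_add, pt_add, pt_sum_smul, pt_sum_smul] at e2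
      have m1 : ∀ n : Fin k → Fin (N / H + 1),
          ∑ j, ((((n j : ℕ) : ℤ) : ℚ)) • pt v (g j) ∈ ln e := fun n =>
        Submodule.sum_mem _ fun j _ => Submodule.smul_mem _ _ (hg j)
      have e3 : c = c' := by
        rw [← hX2 c hc, ← hX2 c' hc', hqe]
        have : pt v (X c) - pt v (X c') = ∑ j, ((((n' j : ℕ) : ℤ) : ℚ)) • pt v (g j)
            - ∑ j, ((((n j : ℕ) : ℤ) : ℚ)) • pt v (g j) := by
          linear_combination e2
        rw [this]
        exact Submodule.sub_mem _ (m1 n') (m1 n)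
      subst e3
      have e4 : ∑ j, ((((n j : ℕ) : ℤ) : ℚ) - (((n' j : ℕ) : ℤ) : ℚ)) • pt v (g j) = 0 := by
        have h5 : ∑ j, ((((n j : ℕ) : ℤ) : ℚ)) • pt v (g j)
            = ∑ j, ((((n' j : ℕ) : ℤ) : ℚ)) • pt v (g j) := add_left_cancel e2
        rw [← sub_eq_zero, ← Finset.sum_sub_distrib] at h5
        rw [← h5]
        exact Finset.sum_congr rfl fun j _ => sub_smul _ _ _
      have e5 := Fintype.linearIndependent_iff.1 hgi _ e4
      have e6 : n = n' := by
        funext j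
        have h6 := e5 j
        have h7 : (((n j : ℕ) : ℤ) : ℚ) = (((n' j : ℕ) : ℤ) : ℚ) := sub_eq_zero.1 h6
        exact Fin.ext (by exact_mod_cast h7)
      rw [e6]
  -- number of classes
  have hNpos : (0 : ℝ) < N := by
    have : 0 < N := hN
    exact_mod_cast this
  have hRle : (R.card : ℝ) ≤ 5 ^ d * (H : ℝ) ^ k * (N : ℝ) ^ (d - k) := by
    have h1 : (R.card : ℝ) * ((N / H : ℕ) + 1 : ℝ) ^ k ≤ (4 * N + 1 : ℝ) ^ d := by
      exact_mod_cast hcount
    have h2 : (N : ℝ) / H ≤ ((N / H : ℕ) : ℝ) + 1 := by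
      rw [div_le_iff₀ hHpos]
      have h3 : N < H * (N / H + 1) := Nat.lt_mul_div_succ N (by omega)
      have h4 : (N : ℝ) < H * ((N / H : ℕ) + 1 : ℝ) := by exact_mod_cast h3
      linarith
    have h3 : (R.card : ℝ) * ((N : ℝ) / H) ^ k ≤ (5 * N : ℝ) ^ d := by
      calc (R.card : ℝ) * ((N : ℝ) / H) ^ k ≤ (R.card : ℝ) * ((N / H : ℕ) + 1 : ℝ) ^ k := by
            gcongr
        _ ≤ (4 * N + 1 : ℝ) ^ d := h1
        _ ≤ (5 * N : ℝ) ^ d := by
            have : (1 : ℝ) ≤ N := by exact_mod_cast hN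
            gcongr
            linarith
    rw [div_pow, mul_pow] at h3
    have h4 : (N : ℝ) ^ d = (N : ℝ) ^ k * (N : ℝ) ^ (d - k) := by
      rw [← pow_add]
      congr 1
      omega
    rw [h4, ← mul_div_assoc, div_le_iff₀ (by positivity)] at h3
    have h5 : (N : ℝ) ^ k * (R.card : ℝ) ≤ (N : ℝ) ^ k * (5 ^ d * (H : ℝ) ^ k * (N : ℝ) ^ (d - k)) := by
      linarith
    exact le_of_mul_le_mul_left h5 (by positivity)
  -- pigeonhole
  have hmaps : ∀ z ∈ A, q z ∈ R := fun z hz => Finset.mem_image_of_mem q hz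
  have hcard : A.card = ∑ c ∈ R, (A.filter fun z => q z = c).card :=
    Finset.card_eq_sum_card_fiberwise hmaps
  have hRne : R.Nonempty := hAne.image q
  obtain ⟨c0, hc0, hmax⟩ := Finset.exists_max_image R
    (fun c => (A.filter fun z => q z = c).card) hRne
  obtain ⟨z0, hz0, hz0c⟩ := Finset.mem_image.1 hc0
  refine ⟨z0, ?_⟩
  have e1 : (A.filter fun z => z - z0 ∈ ln e) = A.filter fun z => q z = c0 := by
    apply Finset.filter_congr
    intro z _
    rw [← hz0c, hqe]
  have e2 : (A.card : ℝ) ≤ R.card * ((A.filter fun z => z - z0 ∈ ln e).card : ℝ) := by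
    rw [e1]
    have : A.card ≤ R.card * (A.filter fun z => q z = c0).card := by
      rw [hcard]
      calc ∑ c ∈ R, (A.filter fun z => q z = c).card
          ≤ ∑ _c ∈ R, (A.filter fun z => q z = c0).card := Finset.sum_le_sum fun c hc => hmax c hc
        _ = R.card * (A.filter fun z => q z = c0).card := by
            rw [Finset.sum_const, smul_eq_mul]
    exact_mod_cast this
  have hP : (0 : ℝ) < 5 ^ d * (H : ℝ) ^ k := by positivity
  rw [div_mul_eq_mul_div, one_mul, div_le_iff₀ hP]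
  calc (A.card : ℝ) ≤ R.card * ((A.filter fun z => z - z0 ∈ ln e).card : ℝ) := e2
    _ ≤ (5 ^ d * (H : ℝ) ^ k * (N : ℝ) ^ (d - k)) *
        ((A.filter fun z => z - z0 ∈ ln e).card : ℝ) := by gcongr
    _ = (N : ℝ) ^ (d - k) * ((A.filter fun z => z - z0 ∈ ln e).card : ℝ) *
        (5 ^ d * (H : ℝ) ^ k) := by ring

end Pool.Agent.FCM.H59
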